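import Pool.Agent.helper15.P2.SpecI

set_option autoImplicit false

/-! Project P2, block I, row GB: elementary bounds of the function `Gr`. -/

open scoped ContDiff Topology ComplexConjugate
open MeasureTheory Filter Set Metric

namespace Pool.Agent.P2I

open Pool.Agent.P2

/-- the scalar inequality behind the row -/
theorem GB_scalar (ρ r : ℝ) (h0 : 0 < ρ) (h1 : ρ ≤ 1) (hr : 0 < r) (hr1 : r ≤ 1) :
    0 ≤ Real.log (1 + r ^ 2 / ρ ^ 2) ∧ Real.log (1 + r ^ 2 / ρ ^ 2) ≤ 1 - 2 * Real.log ρ := by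
  have hρ2 : 0 < ρ ^ 2 := by positivity
  have hq : 0 ≤ r ^ 2 / ρ ^ 2 := by positivity
  refine ⟨Real.log_nonneg (by linarith), ?_⟩
  have hle : 1 + r ^ 2 / ρ ^ 2 ≤ 2 / ρ ^ 2 := by
    rw [le_div_iff₀ hρ2, add_mul, div_mul_cancel₀ _ hρ2.ne']
    nlinarith [pow_le_one₀ (n := 2) h0.le h1, pow_le_one₀ (n := 2) hr.le hr1]
  have h2 : Real.log (1 + r ^ 2 / ρ ^ 2) ≤ Real.log (2 / ρ ^ 2) :=
    Real.log_le_log (by linarith) hle
  have h3 : Real.log (2 / ρ ^ 2) = Real.log 2 - 2 * Real.log ρ := by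
    rw [Real.log_div (by norm_num) hρ2.ne', Real.log_pow]
    norm_num
  have h4 : Real.log 2 < 0.6931471808 := Real.log_two_lt_d9
  norm_num at h4
  linarith

theorem GB (hBRC : BRC_stmt) (hIFT : IFT_stmt) : GB_stmt := by
  intro P Q E r hA hE hU hr hr1 z hz hW
  have hρ1 : rh P Q z ≤ 1 := (hBRC P Q hA z hz).2.1
  have hI := hIFT P Q E hA hE hU z hz
  have hzn : 0 < 1 - ‖z‖ := by
    have := mem_ball_zero_iff.1 hz
    linarith
  have hWn : 0 < ‖Wr P Q z‖ := norm_pos_iff.2 hW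
  have hpos : 0 < Real.exp (-(40 * E)) * (1 - ‖z‖) ^ 2 * ‖Wr P Q z‖ ^ 2 := by positivity
  have hρ0 : 0 < rh P Q z := lt_of_lt_of_le hpos hI
  obtain ⟨hs0, hs1⟩ := GB_scalar (rh P Q z) r hρ0 hρ1 hr hr1
  have hlog := Real.log_le_log hpos hI
  rw [Real.log_mul (by positivity) (by positivity), Real.log_mul (by positivity) (by positivity), Real.log_exp,
    Real.log_pow, Real.log_pow] at hlog
  push_cast at hlog
  have hlρ : Real.log (rh P Q z) ≤ 0 := Real.log_nonpos hρ0.le hρ1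
  refine ⟨hρ0, ?_, ?_⟩
  · unfold Gr
    linarith
  · unfold Gr
    linarith

end Pool.Agent.P2I
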