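import Pool.Agent.helper56.P2.SpecU

/-!
# MP_063734_an, block VIII, row UUNI: uniqueness of branches
-/

set_option autoImplicit false
set_option linter.unusedVariables false

namespace Pool.Agent.P2U

open MeasureTheory Set Filter Topology Metric Complex
open scoped ENNReal ContDiff

noncomputable section

theorem UUNI (hGRF : UGRF_stmt) : UUNI_stmt := by
  intro P Q r hHol x0 R R' X X' hx0 hcx hR hRR' hR' hX hX'
  have hq : ((x0, 0) : ℂ × ℂ) ∈ TB 2 r := by
    refine ⟨?_, ?_⟩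
    · show ‖x0‖ < 2
      linarith
    · show ‖(0 : ℂ)‖ < r
      rw [norm_zero]
      linarith
  obtain ⟨ε, δ, hε, -, hδ, Y, -, -, -, -, hY⟩ := hGRF P Q r hHol (x0, 0) hq hcx 1 one_pos
  have key : ∀ (S : ℝ) (Z : ℂ → ℂ), 0 < S → Br P Q S x0 Z → ∀ᶠ w in 𝓝 (0 : ℂ), Z w = Y w := by
    intro S Z hS hZ
    have hc : ContinuousAt Z 0 :=
      (hZ.an.differentiableAt (isOpen_ball.mem_nhds (mem_ball_self hS))).continuousAt
    have h1 : ∀ᶠ w in 𝓝 (0 : ℂ), Z w ∈ ball x0 ε := by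
      apply hc.eventually_mem
      rw [hZ.ini]
      exact isOpen_ball.mem_nhds (mem_ball_self hε)
    have h2 : ∀ᶠ w in 𝓝 (0 : ℂ), w ∈ ball (0 : ℂ) δ := isOpen_ball.mem_nhds (mem_ball_self hδ)
    have h3 : ∀ᶠ w in 𝓝 (0 : ℂ), w ∈ ball (0 : ℂ) S := isOpen_ball.mem_nhds (mem_ball_self hS)
    filter_upwards [h1, h2, h3] with w hw1 hw2 hw3
    exact (hY (Z w) hw1 w hw2).1 (hZ.eq w hw3)
  have h1 := key R X hR hX
  have h2 := key R' X' (hR.trans_le hRR') hX'
  have hev : X =ᶠ[𝓝 (0 : ℂ)] X' := by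
    filter_upwards [h1, h2] with w hw1 hw2
    rw [hw1, hw2]
  have ha : AnalyticOnNhd ℂ X (ball 0 R) := hX.an.analyticOnNhd isOpen_ball
  have ha' : AnalyticOnNhd ℂ X' (ball 0 R) :=
    (hX'.an.mono (ball_subset_ball hRR')).analyticOnNhd isOpen_ball
  exact ha.eqOn_of_preconnected_of_eventuallyEq ha' (convex_ball (0 : ℂ) R).isPreconnected
    (mem_ball_self hR) hev

end

end Pool.Agent.P2U
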