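import Pool.Agent.helper15.P2.SpecI
import Pool.Agent.helper53.P2.MSS

set_option autoImplicit false

/-! Project P2, block I, row IB1: Green's identity, from the lemma `MSS_green` of helper53. -/

open scoped ContDiff Topology ComplexConjugate
open MeasureTheory Filter Set Metric

namespace Pool.Agent.P2

theorem IB1 : IB1_stmt := by
  intro Ω χ T hΩ hχ hc hs hT
  exact MSS_green hΩ (hχ.of_le (WithTop.coe_le_coe.2 le_top)) hs hc (hT.of_le (WithTop.coe_le_coe.2 le_top))

end Pool.Agent.P2
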